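import Mathlib

/-! Artin-Schreier symbol algebras: independence of the monomials. -/

set_option autoImplicit false
set_option linter.all false

open scoped TensorProduct
open Polynomial

noncomputable section

namespace Pool.Agent.H19PS

section gens

variable {K : Type*} [Field K] {p : ℕ} [hp : Fact p.Prime] [CharP K p] {A : Type*} [Ring A] [Algebra K A]
  {x y : A}

omit hp [CharP K p] in
theorem y_aeval (h : y * x = x * y + y) (f : K[X]) :
    y * aeval x f = aeval x (f.comp (X + 1)) * y := by
  have h1 : ∀ n : ℕ, y * x ^ n = (x + 1) ^ n * y := by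
    intro n
    induction n with
    | zero => simp
    | succ n ih =>
      have h2 : y * x = (x + 1) * y := by rw [h, add_mul, one_mul]
      rw [pow_succ, ← mul_assoc, ih, mul_assoc, h2, ← mul_assoc, ← pow_succ]
  induction f using Polynomial.induction_on' with
  | add f g hf hg => rw [map_add, mul_add, hf, hg, add_comp, map_add, add_mul]
  | monomial n c =>
    rw [aeval_monomial, ← mul_assoc, ← (Algebra.commutes c y), mul_assoc, h1, ← C_mul_X_pow_eq_monomial, mul_comp,
      C_comp, X_pow_comp, map_mul, aeval_C, map_pow, map_add, aeval_X, map_one, mul_assoc]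

omit hp [CharP K p] in
theorem ypow_x (h : y * x = x * y + y) (j : ℕ) : y ^ j * x = x * y ^ j + (j : K) • y ^ j := by
  induction j with
  | zero => simp
  | succ j ih =>
    rw [pow_succ', mul_assoc, ih, mul_add, ← mul_assoc, h, add_mul, mul_smul_comm, mul_assoc, ← pow_succ', Nat.cast_succ,
      add_smul, one_smul]
    abel

omit hp [CharP K p] in
theorem y_unit (hp0 : 0 < p) {b : K} (hb : b ≠ 0) (hy : y ^ p = algebraMap K A b) : IsUnit y := by
  have e1 : y * (b⁻¹ • y ^ (p - 1)) = 1 := by
    rw [mul_smul_comm, ← pow_succ', Nat.sub_add_cancel hp0, hy, Algebra.smul_def, ← map_mul, inv_mul_cancel₀ hb, map_one]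
  have e2 : (b⁻¹ • y ^ (p - 1)) * y = 1 := by
    rw [smul_mul_assoc, ← pow_succ, Nat.sub_add_cancel hp0, hy, Algebra.smul_def, ← map_mul, inv_mul_cancel₀ hb, map_one]
  exact ⟨⟨y, _, e1, e2⟩, rfl⟩

/-- polynomials of small degree do not vanish at `x` -/
theorem aeval_x_ne [Nontrivial A] {a b : K} (hb : b ≠ 0) (hx : x ^ p = x + algebraMap K A a)
    (hy : y ^ p = algebraMap K A b) (h : y * x = x * y + y) (f : K[X]) (hf : f.degree < p) (h0 : aeval x f = 0) :
    f = 0 := by
  classical
  by_contra hf0
  have hint : IsIntegral K x := by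
    refine ⟨X ^ p - (X + C a), ?_, ?_⟩
    · refine monic_X_pow_sub ?_
      rw [degree_X_add_C]
      exact_mod_cast hp.out.one_lt
    · rw [← aeval_def, map_sub, map_pow, map_add, aeval_X, aeval_C, hx, sub_self]
  have hyu := y_unit (hp.out.pos) hb hy
  -- the minimal polynomial is invariant under translation
  have hμ : minpoly K x ∣ (minpoly K x).comp (X + 1) := by
    apply minpoly.dvd
    have h1 := y_aeval h (minpoly K x)
    rw [minpoly.aeval, mul_zero] at h1
    exact (hyu.mul_left_eq_zero).1 h1.symm
  have hdeg : (minpoly K x).natDegree < p := by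
    have h1 := minpoly.degree_le_of_ne_zero K x hf0 h0
    have h2 := h1.trans_lt hf
    exact (Polynomial.natDegree_lt_iff_degree_lt (minpoly.ne_zero hint)).2 h2
  let Ω := AlgebraicClosure K
  haveI : CharP Ω p := charP_of_injective_algebraMap (algebraMap K Ω).injective p
  obtain ⟨θ, hθ⟩ := IsAlgClosed.exists_aeval_eq_zero Ω (minpoly K x) (minpoly.degree_pos hint).ne'
  have htr : ∀ m : ℕ, aeval (θ + (m : Ω)) (minpoly K x) = 0 := by
    intro m
    induction m with
    | zero => rw [Nat.cast_zero, add_zero, hθ]
    | succ m ih =>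
      obtain ⟨q, hq⟩ := hμ
      have h1 := congrArg (aeval (θ + (m : Ω))) hq
      rw [map_mul, ih, zero_mul, aeval_comp, map_add, aeval_X, map_one] at h1
      rw [Nat.cast_succ, ← add_assoc]
      exact h1
  have hcard : p ≤ (minpoly K x).natDegree := by
    have hne : (minpoly K x).map (algebraMap K Ω) ≠ 0 :=
      (Polynomial.map_ne_zero_iff (algebraMap K Ω).injective).2 (minpoly.ne_zero hint)
    have h1 : Set.InjOn (fun m : ℕ => θ + (m : Ω)) (Finset.range p : Set ℕ) := by
      intro m hm n hn hmn
      have h2 : (m : Ω) = n := add_left_cancel hmn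
      rw [CharP.cast_eq_iff_mod_eq Ω p] at h2
      rw [Finset.coe_range, Set.mem_Iio] at hm hn
      rwa [Nat.mod_eq_of_lt hm, Nat.mod_eq_of_lt hn] at h2
    have h3 := Polynomial.card_le_degree_of_subset_roots (p := (minpoly K x).map (algebraMap K Ω))
      (Z := (Finset.range p).image fun m : ℕ => θ + (m : Ω)) (by
        intro z hz
        rw [Finset.mem_val, Finset.mem_image] at hz
        obtain ⟨m, -, rfl⟩ := hz
        rw [mem_roots hne, IsRoot.def, eval_map_algebraMap]
        exact htr m)
    rwa [Finset.card_image_of_injOn h1, Finset.card_range, natDegree_map] at h3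
  omega

/-- **Key independence.** -/
theorem key_indep [Nontrivial A] {a b : K} (hb : b ≠ 0) (hx : x ^ p = x + algebraMap K A a)
    (hy : y ^ p = algebraMap K A b) (h : y * x = x * y + y) (g : Fin p → K[X]) (hg : ∀ j, (g j).degree < p)
    (h0 : ∑ j, aeval x (g j) * y ^ (j : ℕ) = 0) (j : Fin p) : g j = 0 := by
  have hyu := y_unit (hp.out.pos) hb hy
  let T : Module.End K A := LinearMap.mulRight K x - LinearMap.mulLeft K x
  have hT : ∀ w, T w = w * x - x * w := fun w => rfl
  have heig : ∀ j : Fin p, aeval x (g j) * y ^ (j : ℕ) ∈ T.eigenspace ((j : ℕ) : K) := by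
    intro j
    rw [Module.End.mem_eigenspace_iff, hT, mul_assoc, ypow_x (K := K) h, mul_add, mul_smul_comm]
    have hc : Commute (aeval x (g j)) x := by
      have := Polynomial.aeval_X (R := K) x
      rw [Commute, SemiconjBy]
      conv_lhs => rw [← this]
      conv_rhs => rw [← this]
      simp only [Polynomial.aeval_X]
      have e := congrArg (aeval x) (mul_comm (g j) X)
      rw [map_mul, map_mul, aeval_X] at e
      exact e
    rw [← mul_assoc, hc.eq, mul_assoc, add_sub_cancel_left]
  have hind := Module.End.eigenspaces_iSupIndep T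
  have hinj : Function.Injective fun j : Fin p => ((j : ℕ) : K) := by
    intro i j hij
    have h2 : ((i : ℕ) : K) = (j : ℕ) := hij
    rw [CharP.cast_eq_iff_mod_eq K p, Nat.mod_eq_of_lt i.2, Nat.mod_eq_of_lt j.2] at h2
    exact Fin.ext h2
  have hind2 := hind.comp hinj
  have h3 := (iSupIndep_iff_finsetSum_eq_zero_imp_eq_zero _).1 hind2 Finset.univ
    (fun j => aeval x (g j) * y ^ (j : ℕ)) (fun j _ => heig j) h0 j (Finset.mem_univ j)
  have h4 : aeval x (g j) = 0 := ((hyu.pow (j : ℕ)).mul_left_eq_zero).1 h3
  exact aeval_x_ne hb hx hy h (g j) (hg j) h4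

end gens

end Pool.Agent.H19PS
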