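import Mathlib
import Pool.Agent.H19PS.D
import Pool.Agent.H552R3.Tsen.Tower

/-! Tsen's theorem for the symbols `[a, b)`. -/

set_option autoImplicit false
set_option linter.all false

open scoped TensorProduct

noncomputable section

namespace Pool.Agent.H19PS

open Pool.Agent.Helper18.Br Pool.Agent.H552R3.SymBr Pool.Agent.H552R3.Tsen

universe u

section irr

variable {L : Type u} [Field L] {p : ℕ} [hp : Fact p.Prime] [CharP L p]

open Polynomial in
/-- Artin-Schreier polynomials are irreducible or have a root. -/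
theorem as_irred (a : L) (ha : ∀ c : L, c ^ p - c ≠ a) : Irreducible (X ^ p - (X + C a) : L[X]) := by
  classical
  let W := AlgebraicClosure L
  haveI : CharP W p := charP_of_injective_algebraMap (algebraMap L W).injective p
  have hmon : (X ^ p - (X + C a) : L[X]).Monic := by
    refine monic_X_pow_sub ?_
    rw [degree_X_add_C]
    exact_mod_cast hp.out.one_lt
  have hnd : (X ^ p - (X + C a) : L[X]).natDegree = p := by
    rw [natDegree_sub_eq_left_of_natDegree_lt, natDegree_X_pow]
    rw [natDegree_X_pow, natDegree_X_add_C]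
    exact hp.out.one_lt
  obtain ⟨θ, hθ⟩ : ∃ θ : W, aeval θ (X ^ p - (X + C a) : L[X]) = 0 :=
    IsAlgClosed.exists_aeval_eq_zero W _ (by
      rw [degree_eq_natDegree hmon.ne_zero, hnd]
      exact_mod_cast hp.out.ne_zero)
  have hθ' : θ ^ p = θ + algebraMap L W a := by
    rw [map_sub, map_pow, map_add, aeval_X, aeval_C, sub_eq_zero] at hθ
    exact hθ
  have hint : IsIntegral L θ := Algebra.IsIntegral.isIntegral θ
  obtain ⟨g, hg⟩ : ∃ g, g = minpoly L θ := ⟨_, rfl⟩
  have hgm : g.Monic := hg ▸ minpoly.monic hint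
  have hgi : Irreducible g := hg ▸ minpoly.irreducible hint
  have hgd : g ∣ X ^ p - (X + C a) := by
    rw [hg]
    exact minpoly.dvd _ _ hθ
  -- roots of `g`
  have hroot : ∀ ρ ∈ (g.map (algebraMap L W)).roots, ∃ j : ℤ, ρ = θ + (j : W) := by
    intro ρ hρ
    have h1 : (g.map (algebraMap L W)).eval ρ = 0 := (mem_roots'.1 hρ).2
    have h2 : ((X ^ p - (X + C a) : L[X]).map (algebraMap L W)).eval ρ = 0 := by
      obtain ⟨q, hq⟩ := hgd
      rw [hq, Polynomial.map_mul, eval_mul, h1, zero_mul]
    simp only [Polynomial.map_sub, Polynomial.map_pow, Polynomial.map_add, map_X, map_C, eval_sub, eval_pow, eval_X,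
      eval_C, eval_add] at h2
    have h3 : (ρ - θ) ^ p = ρ - θ := by
      rw [sub_pow_char, hθ']
      linear_combination h2
    rw [← Subfield.mem_bot_iff_pow_eq_self W p, ← ZMod.fieldRange_castHom_eq_bot p, RingHom.mem_fieldRange] at h3
    obtain ⟨j, hj⟩ := h3
    refine ⟨(j.val : ℤ), ?_⟩
    rw [Int.cast_natCast, ZMod.natCast_val, ← ZMod.castHom_apply (h := dvd_rfl), hj]
    ring
  have hsum : ∀ M : Multiset W, (∀ ρ ∈ M, ∃ j : ℤ, ρ = θ + (j : W)) →
      ∃ s : ℤ, M.sum = (Multiset.card M : W) * θ + (s : W) := by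
    intro M
    induction M using Multiset.induction_on with
    | empty => intro _; exact ⟨0, by simp⟩
    | cons ρ M ih =>
      intro h
      obtain ⟨s, hs⟩ := ih fun ρ hρ => h ρ (Multiset.mem_cons_of_mem hρ)
      obtain ⟨j, hj⟩ := h ρ (Multiset.mem_cons_self _ _)
      refine ⟨j + s, ?_⟩
      rw [Multiset.sum_cons, hs, hj, Multiset.card_cons]
      push_cast
      ring
  obtain ⟨s, hs⟩ := hsum _ hroot
  have hsplit : (g.map (algebraMap L W)).Splits := IsAlgClosed.splits _
  have hcard : Multiset.card (g.map (algebraMap L W)).roots = g.natDegree := by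
    rw [← hsplit.natDegree_eq_card_roots, natDegree_map]
  have hge : p ≤ g.natDegree := by
    by_contra hlt
    push Not at hlt
    have h1 : (g.map (algebraMap L W)).nextCoeff = -(g.map (algebraMap L W)).roots.sum :=
      hsplit.nextCoeff_eq_neg_sum_roots_of_monic (hgm.map _)
    rw [nextCoeff_map_eq, hs, hcard] at h1
    have hgpos : 0 < g.natDegree := hgi.natDegree_pos
    have hd0 : (g.natDegree : L) ≠ 0 := by
      rw [Ne, CharP.cast_eq_zero_iff L p]
      intro h
      exact absurd (Nat.le_of_dvd hgpos h) (not_le.2 hlt)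
    have hd0' : (g.natDegree : W) ≠ 0 := by
      rw [Ne, CharP.cast_eq_zero_iff W p]
      intro h
      exact absurd (Nat.le_of_dvd hgpos h) (not_le.2 hlt)
    have h2 : θ = algebraMap L W ((g.natDegree : L)⁻¹ * (- g.nextCoeff - (s : L))) := by
      rw [map_mul, map_inv₀, map_sub, map_neg, map_natCast, map_intCast, h1, neg_neg, add_sub_cancel_right,
        inv_mul_cancel_left₀ hd0']
    apply ha ((g.natDegree : L)⁻¹ * (- g.nextCoeff - (s : L)))
    apply (algebraMap L W).injective
    rw [map_sub, map_pow, ← h2, hθ']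
    ring
  have hfin : X ^ p - (X + C a) = g :=
    Polynomial.eq_of_monic_of_dvd_of_natDegree_le hgm hmon hgd (by rw [hnd]; exact hge)
  rw [hfin]
  exact hgi

end irr

section form

variable {L : Type u} [Field L] {p : ℕ} [hp : Fact p.Prime] [CharP L p]

open MvPolynomial

theorem adjoin_ps (a b : L) (hb : b ≠ 0) (s : PS L p a b) : s ∈ Algebra.adjoin L {px L p a b, py L p a b} := by
  obtain ⟨e, he⟩ := ps_basis (p := p) a b hb
  rw [← e.sum_repr s]
  refine Subalgebra.sum_mem _ (fun ij _ => Subalgebra.smul_mem _ ?_ _)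
  rw [he]
  exact Subalgebra.mul_mem _ (Subalgebra.pow_mem _ (Algebra.subset_adjoin (by simp)) _)
    (Subalgebra.pow_mem _ (Algebra.subset_adjoin (by simp)) _)

/-- If every polynomial of degree at most `p` in `p + 1` variables without constant term has a nontrivial
zero, then `[a, b) = 0`. -/
theorem psCl_eq_one_of_c1
    (hC1 : ∀ Ψ : MvPolynomial (Option (Fin p)) L, Ψ.totalDegree ≤ p → eval 0 Ψ = 0 →
      ∃ a : Option (Fin p) → L, a ≠ 0 ∧ eval a Ψ = 0)
    (v : L) (y : Lˣ) : psCl p v y = 1 := by
  classical
  by_cases hv : ∀ c : L, c ^ p - c ≠ v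
  swap
  · push Not at hv
    obtain ⟨c, hc⟩ := hv
    rw [← hc]
    exact psCl_wp c y
  have hn := hp.out.pos
  have hirr := as_irred (v : L) hv
  have hX := px_pow (R := L) (p := p) (a := v) (b := (y : L))
  have hY := py_pow (R := L) (p := p) (a := v) (b := (y : L))
  have hYX := py_px (R := L) (p := p) (a := v) (b := (y : L))
  have hcsa := ps_csa (p := p) v (y : L) y.ne_zero
  haveI : Algebra.IsCentral L (PS L p v (y : L)) := hcsa.1
  haveI : IsSimpleRing (PS L p v (y : L)) := hcsa.2.1
  haveI : FiniteDimensional L (PS L p v (y : L)) := hcsa.2.2.1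
  haveI : CharP (PS L p v (y : L)) p :=
    charP_of_injective_algebraMap (algebraMap L (PS L p v (y : L))).injective p
  obtain ⟨E, hE⟩ := ps_basis (p := p) (v : L) (y : L) y.ne_zero
  have hadj := adjoin_ps (p := p) (v : L) (y : L) y.ne_zero
  set B := PS L p v (y : L) with hB
  set x := px L p v (y : L) with hxdef
  set z := py L p v (y : L) with hzdef
  let o : Fin p × Fin p := (⟨0, hn⟩, ⟨0, hn⟩)
  have hEo : E o = 1 := by rw [hE]; simp [o]
  -- the elements `w a`
  let s : (Fin p → L) → B := fun a => ∑ i, a i • x ^ (i : ℕ)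
  let w : (Fin p → L) → B := fun a => s a * z
  have hsx : ∀ a, Commute (s a) x := fun a =>
    Commute.sum_left _ _ _ fun i _ => Commute.smul_left ((Commute.refl x).pow_left _) _
  have hwx : ∀ a, w a * x = x * w a + w a := by
    intro a
    change s a * z * x = x * (s a * z) + s a * z
    rw [mul_assoc, hYX, mul_add, ← mul_assoc, (hsx a).eq, mul_assoc]
  have hsunit : ∀ a : Fin p → L, a ≠ 0 → ∃ t : B, t * s a = 1 ∧ s a * t = 1 := by
    intro a ha
    let q : Polynomial L := ∑ i : Fin p, Polynomial.C (a i) * Polynomial.X ^ (i : ℕ)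
    have hq : Polynomial.aeval x q = s a := by
      simp only [q, s, map_sum, map_mul, Polynomial.aeval_C, map_pow, Polynomial.aeval_X]
      exact Finset.sum_congr rfl fun i _ => (Algebra.smul_def _ _).symm
    have hqc : ∀ i : Fin p, q.coeff (i : ℕ) = a i := by
      intro i
      simp only [q, Polynomial.finset_sum_coeff, Polynomial.coeff_C_mul, Polynomial.coeff_X_pow,
        mul_ite, mul_one, mul_zero]
      rw [Finset.sum_eq_single i]
      · simp
      · intro j _ hj
        rw [if_neg]
        intro h
        exact hj (Fin.ext h.symm)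
      · intro h
        exact absurd (Finset.mem_univ i) h
    have hq0 : q ≠ 0 := by
      intro h
      apply ha
      funext i
      rw [← hqc, h, Polynomial.coeff_zero]
      rfl
    have hqd : q.degree < p := by
      refine (Polynomial.degree_sum_le _ _).trans_lt ?_
      rw [Finset.sup_lt_iff (by exact_mod_cast WithBot.bot_lt_coe p)]
      intro i _
      refine (Polynomial.degree_C_mul_X_pow_le _ _).trans_lt ?_
      exact_mod_cast i.2
    have hcop : IsCoprime (Polynomial.X ^ p - (Polynomial.X + Polynomial.C (v : L))) q := by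
      rw [hirr.coprime_iff_not_dvd]
      intro hdvd
      have h1 := Polynomial.degree_le_of_dvd hdvd hq0
      rw [Polynomial.degree_sub_eq_left_of_degree_lt, Polynomial.degree_X_pow] at h1
      · exact absurd (h1.trans_lt hqd) (lt_irrefl _)
      · rw [Polynomial.degree_X_pow, Polynomial.degree_X_add_C]
        exact_mod_cast hp.out.one_lt
    obtain ⟨c, d, hcd⟩ := hcop
    have h1 := congrArg (Polynomial.aeval x) hcd
    rw [map_add, map_mul, map_mul, map_one, hq, map_sub, map_pow, map_add, Polynomial.aeval_X, Polynomial.aeval_C, hX,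
      sub_self, mul_zero, zero_add] at h1
    refine ⟨Polynomial.aeval x d, h1, ?_⟩
    rw [← hq, ← map_mul, mul_comm, map_mul, hq]
    exact h1
  have hzunit : IsUnit z := y_unit hn y.ne_zero hY
  have hwunit : ∀ a : Fin p → L, a ≠ 0 → w a ^ p ≠ 0 := by
    intro a ha h0
    obtain ⟨t, ht1, ht2⟩ := hsunit a ha
    have hu : IsUnit (w a) := (isUnit_aux t ht2 ht1).mul hzunit
    exact (hu.pow p).ne_zero h0
  -- `w a ^ p` is a scalar
  have hscalar : ∀ a : Fin p → L, ∃ c : L, w a ^ p = algebraMap L B c := by
    intro a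
    by_cases ha : a = 0
    · refine ⟨0, ?_⟩
      have : w a = 0 := by simp [w, s, ha]
      rw [this, zero_pow hn.ne', map_zero]
    · obtain ⟨t, ht1, ht2⟩ := hsunit a ha
      have h1 : Commute (w a ^ p) x := by
        rw [Commute, SemiconjBy, ypow_x (K := L) (hwx a), CharP.cast_eq_zero, zero_smul, add_zero]
      have h2 : Commute (w a ^ p) (s a) :=
        Commute.sum_right _ _ _ fun i _ => Commute.smul_right (h1.pow_right _) _
      have h3 : Commute (w a ^ p) t := by
        rw [Commute, SemiconjBy]
        calc w a ^ p * t = (t * s a) * (w a ^ p * t) := by rw [ht1, one_mul]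
          _ = t * (s a * w a ^ p) * t := by simp only [mul_assoc]
          _ = t * (w a ^ p * s a) * t := by rw [h2.eq]
          _ = t * w a ^ p * (s a * t) := by simp only [mul_assoc]
          _ = t * w a ^ p := by rw [ht2, mul_one]
      have h4 : Commute (w a ^ p) z := by
        have h5 : z = t * w a := by
          change z = t * (s a * z)
          rw [← mul_assoc, ht1, one_mul]
        rw [h5]
        exact h3.mul_right ((Commute.refl (w a)).pow_left p)
      have hc : w a ^ p ∈ Subalgebra.center L B := by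
        rw [Subalgebra.mem_center_iff]
        intro b
        have hb : b ∈ Subalgebra.centralizer L {w a ^ p} := by
          have hle : Algebra.adjoin L {x, z} ≤ Subalgebra.centralizer L {w a ^ p} := by
            rw [Algebra.adjoin_le_iff]
            rintro c (rfl | hc)
            · intro g hg
              rw [Set.mem_singleton_iff.1 hg]
              exact h1.eq
            · rw [Set.mem_singleton_iff.1 hc]
              intro g hg
              rw [Set.mem_singleton_iff.1 hg]
              exact h4.eq
          exact hle (hadj b)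
        exact (hb (w a ^ p) (Set.mem_singleton _)).symm
      rw [Algebra.IsCentral.center_eq_bot] at hc
      obtain ⟨c, hc⟩ := Algebra.mem_bot.1 hc
      exact ⟨c, hc.symm⟩
  -- the form
  let M : Matrix (Fin p × Fin p) (Fin p × Fin p) (MvPolynomial (Fin p) L) :=
    ∑ i, (X i : MvPolynomial (Fin p) L) • (Algebra.leftMulMatrix E (x ^ (i : ℕ) * z)).map C
  let G : MvPolynomial (Fin p) L := (M ^ p) o o
  have hMdeg : ∀ i j, (M i j).totalDegree ≤ 1 := by
    intro i j
    simp only [M, Matrix.sum_apply, Matrix.smul_apply, Matrix.map_apply, smul_eq_mul]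
    refine totalDegree_finsetSum_le fun l _ => (totalDegree_mul _ _).trans ?_
    rw [totalDegree_X, totalDegree_C]
  have hGdeg : G.totalDegree ≤ p := totalDegree_matrix_pow M hMdeg p o o
  have hMev : ∀ a : Fin p → L, M.map (eval a) = Algebra.leftMulMatrix E (w a) := by
    intro a
    have h1 : w a = ∑ i, a i • (x ^ (i : ℕ) * z) := by
      simp only [w, s]
      rw [Finset.sum_mul]
      exact Finset.sum_congr rfl fun i _ => smul_mul_assoc _ _ _
    rw [h1, map_sum]
    ext i j
    simp only [M, Matrix.map_apply, Matrix.sum_apply, Matrix.smul_apply, smul_eq_mul, map_sum, map_mul,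
      eval_X, eval_C, map_smul]
  have hGev : ∀ a : Fin p → L, w a ^ p = algebraMap L B (eval a G) := by
    intro a
    obtain ⟨c, hc⟩ := hscalar a
    have h1 : eval a G = c := by
      have h2 : (M ^ p).map (eval a) = Algebra.leftMulMatrix E (w a ^ p) := by
        rw [map_pow, ← hMev]
        exact map_pow (RingHom.mapMatrix (eval a)) M p
      have h3 := congrFun (congrFun h2 o) o
      rw [Matrix.map_apply, Algebra.leftMulMatrix_eq_repr_mul, hEo, mul_one, hc,
        Algebra.algebraMap_eq_smul_one, ← hEo, map_smul, E.repr_self, Finsupp.smul_apply,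
        Finsupp.single_eq_same, smul_eq_mul, mul_one] at h3
      exact h3
    rw [h1, hc]
  let Ψ : MvPolynomial (Option (Fin p)) L := rename some G - X none ^ p
  have hΨdeg : Ψ.totalDegree ≤ p := by
    refine (totalDegree_sub _ _).trans (max_le ((totalDegree_rename_le _ _).trans hGdeg) ?_)
    rw [totalDegree_X_pow]
  have hΨev : ∀ a : Option (Fin p) → L, eval a Ψ = eval (fun i => a (some i)) G - a none ^ p := by
    intro a
    simp only [Ψ, map_sub, map_pow, eval_X, eval_rename]
    rfl
  have hΨ0 : eval 0 Ψ = 0 := by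
    rw [hΨev]
    have h1 := hGev 0
    have h2 : w 0 = 0 := by simp [w, s]
    rw [h2, zero_pow hn.ne'] at h1
    have h3 : eval (0 : Fin p → L) G = 0 := by
      have h4 := h1.symm
      rwa [FaithfulSMul.algebraMap_eq_zero_iff] at h4
    change eval (0 : Fin p → L) G - 0 ^ p = 0
    rw [h3, zero_pow hn.ne', sub_zero]
  obtain ⟨a, ha0, ha⟩ := hC1 Ψ hΨdeg hΨ0
  rw [hΨev, sub_eq_zero] at ha
  obtain ⟨a', ha'⟩ : ∃ a' : Fin p → L, a' = fun i => a (some i) := ⟨_, rfl⟩
  rw [← ha'] at ha
  have hw := hGev a'
  rw [ha] at hw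
  have ha'0 : a' ≠ 0 := by
    rintro rfl
    apply ha0
    have h1 : w 0 = 0 := by simp [w, s]
    rw [h1, zero_pow hn.ne', eq_comm, FaithfulSMul.algebraMap_eq_zero_iff] at hw
    funext i
    cases i with
    | none => exact pow_eq_zero_iff hn.ne' |>.1 hw
    | some i => exact (congrFun ha' i).symm
  have hc0 : a none ≠ 0 := by
    intro h
    apply hwunit a' ha'0
    rw [hw, h, zero_pow hn.ne', map_zero]
  have h1 : psCl p v y = psCl p v (Units.mk0 (a none) hc0 ^ p) := by
    refine psCl_eq_of_gens v v y (Units.mk0 (a none) hc0 ^ p) x (w a') hX ?_ (hwx a')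
    rw [hw, Units.val_pow_eq_pow_val, Units.val_mk0]
  rw [h1, psCl_pow_right]

end form

section res

variable {F : Type u} [Field F] {p : ℕ} [hp : Fact p.Prime] [CharP F p] (K : Type u) [Field K] [Algebra F K]
  [CharP K p]

theorem res_psCl (a : F) (b : Fˣ) :
    res K (psCl p a b) = psCl p (algebraMap F K a) (ι K b) := by
  have h := ps_csa (p := p) a (b : F) b.ne_zero
  haveI : Algebra.IsCentral F (PS F p a (b : F)) := h.1
  haveI : IsSimpleRing (PS F p a (b : F)) := h.2.1
  haveI : FiniteDimensional F (PS F p a (b : F)) := h.2.2.1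
  haveI : IsSimpleRing (K ⊗[F] PS F p a (b : F)) := isSimple_base F K _
  haveI : Algebra.IsCentral K (K ⊗[F] PS F p a (b : F)) := isCentral_base F K _
  have key : ∀ c : F, (1 : K) ⊗ₜ[F] (algebraMap F (PS F p a (b : F)) c) =
      algebraMap K (K ⊗[F] PS F p a (b : F)) (algebraMap F K c) := by
    intro c
    rw [Algebra.TensorProduct.algebraMap_apply, Algebra.algebraMap_eq_smul_one c,
      Algebra.algebraMap_eq_smul_one c, TensorProduct.tmul_smul, TensorProduct.smul_tmul']
    simp
  exact psCl_of_gens (A := K ⊗[F] PS F p a (b : F)) (by rw [Module.finrank_baseChange, h.2.2.2])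
    (algebraMap F K a) (ι K b) ((1 : K) ⊗ₜ[F] px F p a b) ((1 : K) ⊗ₜ[F] py F p a b)
    (by rw [Algebra.TensorProduct.tmul_pow, one_pow, px_pow, TensorProduct.tmul_add, key])
    (by
      rw [Algebra.TensorProduct.tmul_pow, one_pow, py_pow, key]
      rfl)
    (by rw [Algebra.TensorProduct.tmul_mul_tmul, Algebra.TensorProduct.tmul_mul_tmul, py_px, TensorProduct.tmul_add,
          one_mul])

end res

open Polynomial

section tower

variable {k E L : Type u} [Field k] [Field E] [Field L] [Algebra k E] [Algebra E L] [Algebra k L]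
  [IsScalarTower k E L] {p : ℕ} [hp : Fact p.Prime] [CharP L p]

theorem tsen_tower_ps [IsAlgClosed k] [FiniteDimensional E L] (x : E) (hx : Transcendental k x)
    (hE : ∀ c : E, ∃ p q : k[X], aeval x q ≠ 0 ∧ c * aeval x q = aeval x p) (a : L) (b : Lˣ) :
    psCl p a b = 1 := by
  classical
  have hX : Transcendental k (algebraMap E L x) := by
    rwa [transcendental_algebraMap_iff (algebraMap E L).injective]
  let ω := Module.finBasis E L
  have hspan : ∀ z : L, ∃ h : k[X], h ≠ 0 ∧ ∃ p : Fin (Module.finrank E L) → k[X],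
      aeval (algebraMap E L x) h * z = ∑ j, aeval (algebraMap E L x) (p j) * ω j := by
    intro z
    obtain ⟨h, hh, p, hp⟩ := common_denom x hE (fun j => ω.repr z j)
    refine ⟨h, ?_, p, ?_⟩
    · rintro rfl
      exact hh (map_zero _)
    · conv_lhs => rw [← ω.sum_repr z]
      rw [Finset.mul_sum]
      refine Finset.sum_congr rfl fun j _ => ?_
      rw [aeval_algebraMap_apply, aeval_algebraMap_apply, ← hp, map_mul, Algebra.smul_def, mul_assoc]
  have hlin : ∀ p : Fin (Module.finrank E L) → k[X],
      ∑ j, aeval (algebraMap E L x) (p j) * ω j = 0 → ∀ j, p j = 0 := by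
    intro p hp j
    have h1 : ∑ j, (aeval x (p j)) • ω j = 0 := by
      rw [← hp]
      refine Finset.sum_congr rfl fun j _ => ?_
      rw [aeval_algebraMap_apply, Algebra.smul_def]
    have h2 := (Fintype.linearIndependent_iff.1 ω.linearIndependent) _ h1 j
    by_contra h0
    exact hx ⟨p j, h0, h2⟩
  refine psCl_eq_one_of_c1 (fun Ψ h1 h2 => ?_) a b
  refine exists_zero (algebraMap E L x) ω hX hspan hlin Ψ p h1 h2 ?_
  rw [Fintype.card_option, Fintype.card_fin]
  exact Nat.lt_succ_self p

end tower

section dep

variable {k K : Type u} [Field k] [IsAlgClosed k] [Field K] [Algebra k K] {p : ℕ} [hp : Fact p.Prime] [CharP K p]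

/-- constants are of the form `c ^ p - c` -/
theorem const_wp (c : k) : ∃ d : k, d ^ p - d = c := by
  obtain ⟨d, hd⟩ := IsAlgClosed.exists_root (X ^ p - (X + C c) : k[X]) (by
    rw [degree_sub_eq_left_of_degree_lt]
    · rw [degree_X_pow]
      exact_mod_cast hp.out.ne_zero
    · rw [degree_X_pow, degree_X_add_C]
      exact_mod_cast hp.out.one_lt)
  refine ⟨d, ?_⟩
  rw [IsRoot.def, eval_sub, eval_add, eval_pow, eval_X, eval_C] at hd
  linear_combination hd

theorem psCl_const_left (c : k) (b : Kˣ) : psCl p (algebraMap k K c) b = 1 := by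
  obtain ⟨d, rfl⟩ := const_wp (p := p) c
  rw [map_sub, map_pow]
  exact psCl_wp _ _

theorem psCl_const_right (a : K) (c : kˣ) : psCl p a (ι K c) = 1 := by
  obtain ⟨d, hd⟩ := IsAlgClosed.exists_pow_nat_eq (c : k) hp.out.pos
  have hd0 : d ≠ 0 := by
    rintro rfl
    rw [zero_pow hp.out.ne_zero] at hd
    exact c.ne_zero hd.symm
  have hx' : ι K c = (ι K (Units.mk0 d hd0)) ^ p := by
    ext
    rw [Units.val_pow_eq_pow_val]
    change algebraMap k K c = (algebraMap k K d) ^ p
    rw [← map_pow, hd]
  rw [hx', psCl_pow_right]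

/-- **Tsen's theorem**: `[x, y) = 0` if `x, y` are algebraically dependent over an algebraically closed
subfield. -/
theorem tsen_ps (x : K) (y : Kˣ) (hxy : ¬ AlgebraicIndependent k ![x, (y : K)]) : psCl p x y = 1 := by
  by_cases hx : IsAlgebraic k x
  · obtain ⟨c, hc⟩ := mem_range_of_alg x hx
    rw [← hc]
    exact psCl_const_left c y
  · have hy := alg_of_dep x (y : K) hx hxy
    let E := IntermediateField.adjoin k {x}
    let L := IntermediateField.adjoin E {(y : K)}
    haveI : FiniteDimensional E L := IntermediateField.adjoin.finiteDimensional hy.isIntegral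
    haveI : CharP L p := (RingHom.charP_iff (algebraMap L K) (algebraMap L K).injective p).2 inferInstance
    let xE : E := IntermediateField.AdjoinSimple.gen k x
    have hxE : Transcendental k xE := by
      have h1 : algebraMap E K xE = x := rfl
      rw [← transcendental_algebraMap_iff (A := K) (algebraMap E K).injective, h1]
      exact hx
    have hE : ∀ c : E, ∃ p q : k[X], aeval xE q ≠ 0 ∧ c * aeval xE q = aeval xE p := by
      intro c
      obtain ⟨p, q, h1⟩ := (IntermediateField.mem_adjoin_simple_iff k (c : K)).1 c.2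
      by_cases hq : aeval x q = 0
      · refine ⟨0, 1, by simp, ?_⟩
        rw [hq, div_zero] at h1
        have : c = 0 := Subtype.ext h1
        rw [this, zero_mul, map_zero]
      · have h3 : ∀ p : k[X], ((aeval xE p : E) : K) = aeval x p := by
          intro p
          exact (aeval_algebraMap_apply K xE p).symm
        refine ⟨p, q, ?_, ?_⟩
        · intro h2
          apply hq
          rw [← h3, h2]
          rfl
        · apply Subtype.ext
          rw [MulMemClass.coe_mul, h3, h3, h1, div_mul_cancel₀ _ hq]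
    let yL : L := IntermediateField.AdjoinSimple.gen E (y : K)
    have hyne : yL ≠ 0 := by
      intro h1
      apply y.ne_zero
      have h2 := congrArg (algebraMap L K) h1
      rw [map_zero] at h2
      exact h2
    have h1 := tsen_tower_ps (p := p) (L := L) xE hxE hE (algebraMap E L xE) (Units.mk0 _ hyne)
    have h2 := congrArg (res K) h1
    rw [map_one, res_psCl] at h2
    rw [← h2]
    congr 1
    ext; rfl

end dep

end Pool.Agent.H19PS
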