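import Mathlib
import Pool.Agent.H19PS.F
import Pool.Agent.Y109.PI.RM

/-! Nonsingular and singular translates of matrices over a prime field. -/

set_option autoImplicit false
set_option linter.all false

open scoped TensorProduct

noncomputable section

namespace Pool.Agent.H19PS

open Pool.Agent.Helper18.Br Pool.Agent.H552R3.SymBr Pool.Agent.H552R3.Tsen Pool.Agent.Y109.PI

universe u

section mats

variable {p : ℕ} [hp : Fact p.Prime] {g r : ℕ}

theorem red_sum (P : Matrix (Fin g) (Fin g) ℤ) (c : Fin r → ℤ) (w : Fin r → Matrix (Fin g) (Fin g) ℤ) :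
    (P + ∑ k, c k • w k).map (Int.castRingHom (ZMod p)) =
      P.map (Int.castRingHom (ZMod p)) + ∑ k, (c k : ZMod p) • (w k).map (Int.castRingHom (ZMod p)) := by
  ext u v
  simp only [Matrix.map_apply, Matrix.add_apply, Matrix.sum_apply, Matrix.smul_apply, map_add, map_sum,
    smul_eq_mul, map_mul, eq_intCast]

theorem det_dvd_iff (P : Matrix (Fin g) (Fin g) ℤ) :
    (p : ℤ) ∣ P.det ↔ (P.map (Int.castRingHom (ZMod p))).det = 0 := by
  haveI : NeZero p := ⟨hp.out.ne_zero⟩
  rw [← RingHom.mapMatrix_apply, ← RingHom.map_det, eq_intCast, ZMod.intCast_zmod_eq_zero_iff_dvd]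

open Polynomial in
/-- one relation -/
theorem cond_one (hg : g < p) (w P : Matrix (Fin g) (Fin g) (ZMod p)) (hw : w.det ≠ 0) :
    ∃ c : ZMod p, (P + c • w).det ≠ 0 := by
  classical
  let f : (ZMod p)[X] := Matrix.det ((X : (ZMod p)[X]) • w.map C + P.map C)
  have hev : ∀ c : ZMod p, f.eval c = (P + c • w).det := by
    intro c
    simp only [f]
    rw [← coe_evalRingHom, RingHom.map_det]
    congr 1
    ext i j
    simp only [RingHom.mapMatrix_apply, Matrix.map_apply, Matrix.add_apply, Matrix.smul_apply, smul_eq_mul,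
      coe_evalRingHom, eval_add, eval_mul, eval_X, eval_C]
    ring
  have hf : f ≠ 0 := by
    intro h
    have h1 := coeff_det_X_add_C_card w P
    rw [show Matrix.det ((X : (ZMod p)[X]) • w.map C + P.map C) = f from rfl, h, coeff_zero] at h1
    exact hw h1.symm
  by_contra hcon
  push Not at hcon
  have h2 : Fintype.card (ZMod p) ≤ f.natDegree := by
    rw [← Finset.card_univ]
    refine card_le_degree_of_subset_roots (p := f) (Z := Finset.univ) fun c _ => ?_
    rw [mem_roots hf, IsRoot.def, hev, hcon c]
  have h3 : f.natDegree ≤ Fintype.card (Fin g) := natDegree_det_X_add_C_le w P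
  rw [ZMod.card] at h2
  rw [Fintype.card_fin] at h3
  omega

/-- the alternating matrix attached to a square matrix -/
def anti (P : Matrix (Fin g) (Fin g) (ZMod p)) : Matrix (Fin g ⊕ Fin g) (Fin g ⊕ Fin g) (ZMod p) :=
  Matrix.fromBlocks 0 P (-P.transpose) 0

theorem anti_alt (P : Matrix (Fin g) (Fin g) (ZMod p)) : Alt (anti P) := by
  constructor
  · rintro (u | u) <;> simp [anti]
  · rintro (u | u) (v | v) <;> simp [anti]

theorem anti_sum (P : Matrix (Fin g) (Fin g) (ZMod p)) (c : Fin r → ZMod p) (w : Fin r → Matrix (Fin g) (Fin g) (ZMod p)) :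
    anti P + ∑ k, c k • anti (w k) = anti (P + ∑ k, c k • w k) := by
  ext u v
  rcases u with u | u <;> rcases v with v | v <;>
    simp [anti, Matrix.sum_apply, Matrix.add_apply, Finset.sum_neg_distrib] <;> ring

theorem anti_sum' (c : Fin r → ZMod p) (w : Fin r → Matrix (Fin g) (Fin g) (ZMod p)) :
    ∑ k, c k • anti (w k) = anti (∑ k, c k • w k) := by
  have h := anti_sum (p := p) 0 c w
  rw [zero_add] at h
  rw [← h]
  have : anti (0 : Matrix (Fin g) (Fin g) (ZMod p)) = 0 := by
    ext u v
    rcases u with u | u <;> rcases v with v | v <;> simp [anti]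
  rw [this, zero_add]

/-- `g` relations -/
theorem cond_many (hg : 0 < g) (w : Fin g → Matrix (Fin g) (Fin g) (ZMod p)) (P : Matrix (Fin g) (Fin g) (ZMod p))
    (hcount : ¬ p ∣ Nat.card {c : Fin g → ZMod p // (∑ i, c i • w i).det = 0}) :
    (∃ c : Fin g → ZMod p, (P + ∑ i, c i • w i).det = 0) ∧ ∃ c : Fin g → ZMod p, (P + ∑ i, c i • w i).det ≠ 0 := by
  classical
  have h := cwI g hg (by simp [two_mul]) (anti P) (anti_alt P) (fun i => anti (w i)) (fun i => anti_alt _) (by
    have e : (Finset.univ.filter fun c : Fin g → ZMod p => (∑ i, c i • anti (w i)).det = 0) =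
        Finset.univ.filter fun c : Fin g → ZMod p => (∑ i, c i • w i).det = 0 := by
      refine Finset.filter_congr fun c _ => ?_
      rw [anti_sum', anti, det_anti]
    rw [e, ← Fintype.card_subtype, ← Nat.card_eq_fintype_card]
    exact hcount)
  simp only [anti_sum] at h
  simp only [anti, Ne, det_anti] at h
  exact h

/-- diagonal relations -/
theorem diag_count (hg : 0 < g) :
    ¬ p ∣ Nat.card {c : Fin g → ZMod p // (∑ i, c i • (Matrix.single i i 1 : Matrix (Fin g) (Fin g) (ZMod p))).det = 0} := by
  classical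
  have e : ∀ c : Fin g → ZMod p, (∑ i, c i • (Matrix.single i i 1 : Matrix (Fin g) (Fin g) (ZMod p))).det = ∏ i, c i := by
    intro c
    have h1 : (∑ i, c i • (Matrix.single i i 1 : Matrix (Fin g) (Fin g) (ZMod p))) = Matrix.diagonal c := by
      ext u v
      rw [Matrix.sum_apply]
      simp only [Matrix.smul_apply, smul_eq_mul]
      rw [Finset.sum_eq_single u]
      · by_cases h : u = v
        · subst h; simp
        · rw [Matrix.diagonal_apply_ne _ h, Matrix.single_apply_of_col_ne _ _ h, mul_zero]
      · intro i _ hi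
        rw [Matrix.single_apply_of_row_ne hi, mul_zero]
      · intro h; exact absurd (Finset.mem_univ _) h
    rw [h1, Matrix.det_diagonal]
  simp only [e]
  intro hdvd
  rw [Nat.card_eq_fintype_card, Fintype.card_subtype] at hdvd
  have h1 : (Finset.univ.filter fun c : Fin g → ZMod p => ∏ i, c i = 0).card +
      (Finset.univ.filter fun c : Fin g → ZMod p => ¬ ∏ i, c i = 0).card = p ^ g := by
    rw [Finset.card_filter_add_card_filter_not, Finset.card_univ, Fintype.card_fun, ZMod.card, Fintype.card_fin]
  have h2 : (Finset.univ.filter fun c : Fin g → ZMod p => ¬ ∏ i, c i = 0) =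
      Fintype.piFinset fun _ : Fin g => (Finset.univ.filter fun x : ZMod p => x ≠ 0) := by
    ext c
    simp only [Finset.mem_filter, Finset.mem_univ, true_and, Fintype.mem_piFinset, Finset.prod_eq_zero_iff, not_exists]
  have h3 : (Finset.univ.filter fun x : ZMod p => x ≠ 0).card = p - 1 := by
    rw [Finset.filter_ne', Finset.card_erase_of_mem (Finset.mem_univ _), Finset.card_univ, ZMod.card]
  rw [h2, Fintype.card_piFinset, Finset.prod_const, h3, Finset.card_univ, Fintype.card_fin] at h1
  have h4 : p ∣ (p - 1) ^ g := by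
    have h5 : p ∣ p ^ g := dvd_pow_self p hg.ne'
    rw [← h1] at h5
    exact (Nat.dvd_add_right hdvd).1 h5
  have h6 := hp.out.dvd_of_dvd_pow h4
  have h7 := hp.out.two_le
  exact absurd (Nat.le_of_dvd (by omega) h6) (by omega)

end mats

end Pool.Agent.H19PS
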