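import Mathlib
import Pool.Agent.H19PS.I

/-! The index bounds, with a predicate for symbols. -/

set_option autoImplicit false
set_option linter.all false

open scoped TensorProduct

noncomputable section

namespace Pool.Agent.H19PS

open Pool.Agent.Helper18.Br Pool.Agent.H552R3.SymBr Pool.Agent.H552R3.Tsen Pool.Agent.Y109.PI

universe u

section

variable {k K : Type u} [Field k] [IsAlgClosed k] [Field K] [Algebra k K] {p : ℕ} [hp : Fact p.Prime] [CharP K p]
  {g : ℕ} {a : Fin g → K} {b : Fin g → Kˣ}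

theorem Qp_single (i : Fin g) : Qp p a b (Matrix.single i i 1) = psCl p (a i) (b i) := by
  rw [Qp, Finset.prod_eq_single i, Finset.prod_eq_single i]
  · simp
  · intro j _ hj
    rw [Matrix.single_apply_of_col_ne _ _ (Ne.symm hj), zpow_zero]
  · intro h; exact absurd (Finset.mem_univ _) h
  · intro j _ hj
    refine Finset.prod_eq_one fun l _ => ?_
    rw [Matrix.single_apply_of_row_ne (Ne.symm hj), zpow_zero]
  · intro h; exact absurd (Finset.mem_univ _) h

/-- the purely inseparable part -/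
theorem insep {s : ℕ} (z : Fin s → Kˣ) {ζ : BrauerGroup.{u, u} K}
    (hζ : ζ ∈ Subgroup.closure {γ | ∃ (x : K) (j : Fin s), γ = psCl p x (z j)}) :
    ∃ x : Fin s → K, ζ = ∏ j, psCl p (x j) (z j) := by
  classical
  let T : Subgroup (BrauerGroup.{u, u} K) :=
    { carrier := {ζ | ∃ x : Fin s → K, ζ = ∏ j, psCl p (x j) (z j)}
      mul_mem' := by
        rintro _ _ ⟨x, rfl⟩ ⟨y, rfl⟩
        refine ⟨x + y, ?_⟩
        simp only [Pi.add_apply, psCl_add_left, Finset.prod_mul_distrib]
      one_mem' := ⟨0, by simp [psCl_zero_left]⟩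
      inv_mem' := by
        rintro _ ⟨x, rfl⟩
        refine ⟨-x, ?_⟩
        have h2 : ∀ i, psCl p ((-x) i) (z i) = (psCl p (x i) (z i))⁻¹ := by
          intro i
          have := S_zsmul (p := p) (-1) (x i) (z i)
          rwa [neg_smul, one_smul, _root_.zpow_neg_one] at this
        simp only [h2, Finset.prod_inv_distrib] }
  refine (Subgroup.closure_le T).2 ?_ hζ
  rintro γ ⟨x, j, rfl⟩
  refine ⟨Pi.single j x, ?_⟩
  rw [Finset.prod_eq_single j]
  · rw [Pi.single_eq_same]
  · intro i _ hi; rw [Pi.single_eq_of_ne hi, psCl_zero_left]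
  · intro h; exact absurd (Finset.mem_univ _) h

/-- the conditions of the main theorem -/
theorem cond_all (g : ℕ) (Q : Matrix (Fin g) (Fin g) ℤ → Prop)
    (h : (∃ w : Matrix (Fin g) (Fin g) ℤ, g < p ∧ ¬ (p : ℤ) ∣ w.det ∧ Q w) ∨
      (∃ w : Fin g → Matrix (Fin g) (Fin g) ℤ, (∀ k, Q (w k)) ∧
        ¬ p ∣ Nat.card {c : Fin g → ZMod p // (∑ k, c k • (w k).map (Int.castRingHom (ZMod p))).det = 0}) ∨
      (∀ i, Q (Matrix.single i i 1))) :
    ∃ (r : ℕ) (w : Fin r → Matrix (Fin g) (Fin g) ℤ), (∀ k, Q (w k)) ∧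
      ∀ P : Matrix (Fin g) (Fin g) (ZMod p), ∃ c : Fin r → ZMod p,
        (P + ∑ k, c k • (w k).map (Int.castRingHom (ZMod p))).det ≠ 0 := by
  classical
  have hsing : ∀ i : Fin g, (Matrix.single i i 1 : Matrix (Fin g) (Fin g) ℤ).map (Int.castRingHom (ZMod p)) =
      Matrix.single i i 1 := by
    intro i
    ext u v
    rw [Matrix.map_apply, Matrix.single_apply, Matrix.single_apply]
    split_ifs <;> simp
  rcases Nat.eq_zero_or_pos g with hg | hg
  · subst hg
    refine ⟨0, fun i => Fin.elim0 i, fun i => Fin.elim0 i, fun P => ⟨fun i => Fin.elim0 i, ?_⟩⟩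
    rw [Matrix.det_isEmpty]
    exact one_ne_zero
  rcases h with ⟨w, h1, h2, h3⟩ | ⟨w, h1, h2⟩ | h1
  · refine ⟨1, fun _ => w, fun _ => h3, fun P => ?_⟩
    obtain ⟨c, hc⟩ := cond_one h1 (w.map (Int.castRingHom (ZMod p))) P (fun h => h2 ((det_dvd_iff w).2 h))
    exact ⟨fun _ => c, by simpa using hc⟩
  · exact ⟨g, w, h1, fun P => (cond_many hg _ P h2).2⟩
  · refine ⟨g, fun i => Matrix.single i i 1, h1, fun P => (cond_many hg _ P ?_).2⟩
    simp only [hsing]
    exact diag_count hg

/-- symbols over a field of transcendence degree one vanish -/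
theorem V_bot (L : IntermediateField k K) (hL : Algebra.trdeg k L ≤ 1) (x : K) (y : Kˣ) (hx : x ∈ L)
    (hy : (y : K) ∈ L) : psCl p x y = 1 := by
  refine tsen_ps (k := k) x y ?_
  intro h
  have h1 : AlgebraicIndependent k ![(⟨x, hx⟩ : L), (⟨y, hy⟩ : L)] := by
    apply AlgebraicIndependent.of_comp L.val
    convert h using 1
    funext i
    fin_cases i <;> rfl
  have h2 := h1.lift_cardinalMk_le_trdeg
  have h3 := h2.trans (Cardinal.lift_le.2 hL)
  simp at h3

end

end Pool.Agent.H19PS
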